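import Pool.Agent.Q128.Reeb46

/-!
# A hyperbolic (4,6)-distribution germ with Reeb directions which is not flat

The witness is the germ at `0` of `ker (dz₁ - y₁ dx₁) ∩ ker (dz₂ - y₂ dx₂ + (y₁² / 2) dx₁)`
on `ℝ⁶` with coordinates `(x₁, y₁, z₁, x₂, y₂, z₂)`, see `Pool.Agent.Q128.Reeb46.engel`.
-/

open Pool.Agent.Q128.Reeb46

namespace Pool.Agent.Results.MP_08c0df_gt.EngelTimesContact

/-- There is a hyperbolic `(4,6)`-distribution germ which admits Reeb directions and is not
diffeomorphic to the flat hyperbolic germ. -/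
theorem result : ∃ D : E6 → Submodule ℝ E6, IsHyperbolicGerm D 0 ∧ AdmitsReebDirections D 0 ∧
    ¬ DiffeomorphicGerms D 0 flat 0 :=
  ⟨engel, ⟨⟨E, engel_frame 0⟩, Filter.Eventually.of_forall engel_hyperbolicAt⟩, engel_reeb 0,
    not_flat 0 0⟩

end Pool.Agent.Results.MP_08c0df_gt.EngelTimesContact
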